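import Mathlib

set_option autoImplicit false

/-!
# A composite `n` outside the list with `φ₃(n) ∣ n - 1`

`n = 4125441 = 3 * 17 * 23 * 3517`, `φ₃(n) = 825088`, `n - 1 = 5 * 825088`.
-/

namespace Pool.Agent.Results.MP_3af439_nt.Counterexample

/-- `φ_e(n)`: the number of `i` with `1 ≤ i ≤ ⌊n / e⌋` and `gcd(i, n) = 1` -/
def phiE (e n : ℕ) : ℕ := ((Finset.Icc 1 (n / e)).filter (fun i => Nat.gcd i n = 1)).card

/-- the exceptional list of the problem -/
def excList : List ℕ := [4, 6, 8, 9, 12, 16, 21, 65, 425, 1729, 3201, 3531, 22865]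

/-- number of `i ≤ x` prime to `n` -/
def cop (x n : ℕ) : ℕ := ((Finset.Icc 1 x).filter (fun i => Nat.gcd i n = 1)).card

lemma cop_one (x : ℕ) : cop x 1 = x := by
  unfold cop
  simp

/-- Legendre's recursion -/
lemma cop_mul (x n p : ℕ) (hp : p.Prime) (hn : ¬ p ∣ n) :
    cop x (n * p) + cop (x / p) n = cop x n := by
  classical
  unfold cop
  have hpos := hp.pos
  have h1 : ((Finset.Icc 1 x).filter (fun i => Nat.gcd i n = 1)) =
      ((Finset.Icc 1 x).filter (fun i => Nat.gcd i (n * p) = 1)) ∪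
        (((Finset.Icc 1 (x / p)).filter (fun i => Nat.gcd i n = 1)).image (fun i => p * i)) := by
    ext i
    rw [Finset.mem_union, Finset.mem_filter, Finset.mem_filter, Finset.mem_image, Finset.mem_Icc]
    constructor
    · rintro ⟨⟨h1, h2⟩, h3⟩
      by_cases hd : p ∣ i
      · right
        obtain ⟨j, rfl⟩ := hd
        refine ⟨j, ?_, rfl⟩
        rw [Finset.mem_filter, Finset.mem_Icc]
        refine ⟨⟨?_, ?_⟩, ?_⟩
        · rcases Nat.eq_zero_or_pos j with h | h
          · subst h; omega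
          · exact h
        · rw [Nat.le_div_iff_mul_le hpos]
          rw [mul_comm]; exact h2
        · exact Nat.Coprime.coprime_dvd_left (Dvd.intro_left p rfl) h3
      · left
        refine ⟨⟨h1, h2⟩, ?_⟩
        exact Nat.Coprime.mul_right h3 ((Nat.Prime.coprime_iff_not_dvd hp).2 hd).symm
    · rintro (⟨⟨h1, h2⟩, h3⟩ | ⟨j, hj, rfl⟩)
      · exact ⟨⟨h1, h2⟩, Nat.Coprime.coprime_dvd_right (Dvd.intro p rfl) h3⟩
      · rw [Finset.mem_filter, Finset.mem_Icc] at hj
        obtain ⟨⟨h1, h2⟩, h3⟩ := hj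
        rw [Nat.le_div_iff_mul_le hpos] at h2
        refine ⟨⟨?_, by rw [mul_comm]; exact h2⟩, ?_⟩
        · exact Nat.mul_pos hpos h1
        · exact Nat.Coprime.mul_left ((Nat.Prime.coprime_iff_not_dvd hp).2 hn) h3
  have h2 : Disjoint ((Finset.Icc 1 x).filter (fun i => Nat.gcd i (n * p) = 1))
      (((Finset.Icc 1 (x / p)).filter (fun i => Nat.gcd i n = 1)).image (fun i => p * i)) := by
    rw [Finset.disjoint_left]
    intro i hi hi'
    rw [Finset.mem_filter] at hi
    rw [Finset.mem_image] at hi'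
    obtain ⟨j, _, rfl⟩ := hi'
    have : p ∣ Nat.gcd (p * j) (n * p) := Nat.dvd_gcd (Dvd.intro j rfl) (Dvd.intro_left n rfl)
    rw [hi.2] at this
    exact hp.one_lt.ne' (Nat.dvd_one.1 this)
  rw [h1, Finset.card_union_of_disjoint h2, Finset.card_image_of_injective]
  intro a b hab
  exact Nat.eq_of_mul_eq_mul_left hpos hab

/-- the same recursion as a function -/
def cc : List ℕ → ℕ → ℕ
  | [], x => x
  | p :: l, x => cc l x - cc l (x / p)

lemma cop_eq_cc : ∀ (l : List ℕ), (∀ p ∈ l, p.Prime) → l.Nodup → ∀ x : ℕ, cop x l.prod = cc l x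
  | [], _, _, x => by simp [cop_one, cc]
  | p :: l, hl, hnd, x => by
    have hp : p.Prime := hl p (by simp)
    have hl' : ∀ q ∈ l, q.Prime := fun q hq => hl q (by simp [hq])
    rw [List.nodup_cons] at hnd
    have hndvd : ¬ p ∣ l.prod := by
      intro h
      obtain ⟨q, hq, hpq⟩ := (Prime.dvd_prod_iff hp.prime).1 h
      have := (Nat.prime_dvd_prime_iff_eq hp (hl' q hq)).1 hpq
      subst this
      exact hnd.1 hq
    have h := cop_mul x l.prod p hp hndvd
    rw [cop_eq_cc l hl' hnd.2 x, cop_eq_cc l hl' hnd.2 (x / p)] at h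
    have e : (p :: l).prod = l.prod * p := by rw [List.prod_cons, mul_comm]
    rw [e]
    show cop x (l.prod * p) = cc l x - cc l (x / p)
    omega

lemma phi3_val : phiE 3 4125441 = 825088 := by
  have h := cop_eq_cc [3, 17, 23, 3517] (by
    intro p hp
    simp only [List.mem_cons, List.not_mem_nil, or_false] at hp
    rcases hp with rfl | rfl | rfl | rfl <;> norm_num) (by decide) 1375147
  have e : [3, 17, 23, 3517].prod = 4125441 := by norm_num
  rw [e] at h
  show cop (4125441 / 3) 4125441 = 825088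
  have e2 : 4125441 / 3 = 1375147 := by norm_num
  rw [e2, h]
  decide +kernel

/-- The assertion '`φ₃(n) ∤ n - 1` for every composite `n ≥ 4` outside the list' is false. -/
theorem result :
    ¬ (∀ n : ℕ, 4 ≤ n → ¬ n.Prime → n ∉ excList → ¬ (phiE 3 n ∣ n - 1)) := by
  intro H
  refine H 4125441 (by norm_num) ?_ (by decide) ?_
  · intro h
    have h3 : (3 : ℕ) ∣ 4125441 := by norm_num
    have := (Nat.prime_dvd_prime_iff_eq Nat.prime_three h).1 h3
    omega
  · rw [phi3_val]
    norm_num

end Pool.Agent.Results.MP_3af439_nt.Counterexample
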